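import Pool.Agent.Lib.MP_7bc51d_an_mode.Neumann

set_option autoImplicit false

namespace Pool.Agent.Lib.BilH

open Complex MeasureTheory Set Filter
open scoped ComplexConjugate Topology ENNReal Interval
open Pool.Agent.Lib.Bil

variable {n : ℕ} {v : Fin n → ℂ}

/-- A potential with directional derivatives `(u A - conj u B) / (2 i)`. -/
structure Pot (K A B : ℂ → ℂ) (C : ℝ) : Prop where
  mA : Measurable A
  mB : Measurable B
  bA : ∀ x, ‖A x‖ ≤ C
  bB : ∀ x, ‖B x‖ ≤ C
  diff : ∀ (y u : ℂ) (s : ℝ), K (y + (s : ℂ) * u) - K y =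
    ∫ t in (0 : ℝ)..s, (1 / (2 * I)) * (u * A (y + (t : ℂ) * u) - conj u * B (y + (t : ℂ) * u))

theorem Pot.lip {K A B : ℂ → ℂ} {C : ℝ} (h : Pot K A B C) (x y : ℂ) :
    ‖K y - K x‖ ≤ C * ‖y - x‖ := by
  have h1 := h.diff x (y - x) 1
  rw [ofReal_one, one_mul, add_sub_cancel] at h1
  rw [h1]
  have h2 := intervalIntegral.norm_integral_le_of_norm_le_const (a := 0) (b := 1)
    (f := fun t : ℝ => (1 / (2 * I)) * ((y - x) * A (x + (t : ℂ) * (y - x)) -
      conj (y - x) * B (x + (t : ℂ) * (y - x)))) (C := C * ‖y - x‖) (by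
      intro t _
      rw [norm_mul]
      have e1 : ‖(1 / (2 * I) : ℂ)‖ = 1 / 2 := by
        rw [norm_div, norm_one, norm_mul, norm_I, mul_one]
        norm_num
      rw [e1]
      have e2 : ‖(y - x) * A (x + (t : ℂ) * (y - x)) -
          conj (y - x) * B (x + (t : ℂ) * (y - x))‖ ≤ ‖y - x‖ * C + ‖y - x‖ * C := by
        refine (norm_sub_le _ _).trans ?_
        rw [norm_mul, norm_mul, RCLike.norm_conj]
        have g1 := h.bA (x + (t : ℂ) * (y - x))
        have g2 := h.bB (x + (t : ℂ) * (y - x))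
        gcongr
      linarith)
  rw [sub_zero, abs_one, mul_one] at h2
  exact h2

theorem Pot.cnonneg {K A B : ℂ → ℂ} {C : ℝ} (h : Pot K A B C) : 0 ≤ C :=
  (norm_nonneg _).trans (h.bA 0)

theorem Pot.cont {K A B : ℂ → ℂ} {C : ℝ} (h : Pot K A B C) : Continuous K := by
  have hl : LipschitzWith (Real.toNNReal C) K := by
    apply LipschitzWith.of_dist_le_mul
    intro x y
    rw [dist_eq_norm, dist_eq_norm, Real.coe_toNNReal _ h.cnonneg]
    exact h.lip y x
  exact hl.continuous

theorem ae_lines {p : ℂ → Prop} (h : ∀ᵐ z : ℂ, p z) :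
    ∀ᵐ a : ℝ, ∀ᵐ b : ℝ, p ((a : ℂ) + (b : ℂ) * I) := by
  have h3 : ∀ᵐ z : ℝ × ℝ ∂((volume : Measure ℝ).prod (volume : Measure ℝ)),
      p (Complex.measurableEquivRealProd.symm z) :=
    Complex.volume_preserving_equiv_real_prod.symm.quasiMeasurePreserving.ae h
  filter_upwards [Measure.ae_ae_of_ae_prod h3] with a ha
  filter_upwards [ha] with b hb
  rw [Complex.measurableEquivRealProd_symm_apply] at hb
  have : (⟨a, b⟩ : ℂ) = (a : ℂ) + (b : ℂ) * I := by
    apply Complex.ext <;> simp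
  rw [← this]
  exact hb

theorem ae_lines' {p : ℂ → Prop} (h : ∀ᵐ z : ℂ, p z) :
    ∀ᵐ b : ℝ, ∀ᵐ a : ℝ, p ((a : ℂ) + (b : ℂ) * I) := by
  have h3 : ∀ᵐ z : ℝ × ℝ ∂((volume : Measure ℝ).prod (volume : Measure ℝ)),
      p (Complex.measurableEquivRealProd.symm z) :=
    Complex.volume_preserving_equiv_real_prod.symm.quasiMeasurePreserving.ae h
  have h4 : ∀ᵐ z : ℝ × ℝ ∂((volume : Measure ℝ).prod (volume : Measure ℝ)),
      p (Complex.measurableEquivRealProd.symm z.swap) :=
    (Measure.measurePreserving_swap (μ := (volume : Measure ℝ))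
      (ν := (volume : Measure ℝ))).quasiMeasurePreserving.ae h3
  filter_upwards [Measure.ae_ae_of_ae_prod h4] with b hb
  filter_upwards [hb] with a ha
  have ha' : p (Complex.measurableEquivRealProd.symm (a, b)) := ha
  rw [Complex.measurableEquivRealProd_symm_apply] at ha'
  have : (⟨a, b⟩ : ℂ) = (a : ℂ) + (b : ℂ) * I := by
    apply Complex.ext <;> simp
  rw [← this]
  exact ha'

theorem ae_of_lines {p : ℂ → Prop} (hm : MeasurableSet {z | p z})
    (h : ∀ b : ℝ, ∀ᵐ a : ℝ, p ((a : ℂ) + (b : ℂ) * I)) : ∀ᵐ z : ℂ, p z := by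
  set f : ℝ × ℝ → ℂ := fun q => (q.1 : ℂ) + (q.2 : ℂ) * I with hf
  have hfm : Measurable f := by
    apply Continuous.measurable; rw [hf]; fun_prop
  have hms : MeasurableSet {q : ℝ × ℝ | p (f q)} := hfm hm
  have h1 : ∀ᵐ b : ℝ, ∀ᵐ a : ℝ, p (f (a, b)) := Eventually.of_forall (fun b => h b)
  have h2 : ∀ᵐ a : ℝ, ∀ᵐ b : ℝ, p (f (a, b)) :=
    (Measure.ae_ae_comm (p := fun a b => p (f (a, b))) hms).2 h1
  have h3 : ∀ᵐ q ∂((volume : Measure ℝ).prod (volume : Measure ℝ)), p (f q) :=
    (Measure.ae_prod_iff_ae_ae hms).2 h2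
  have h4 := Complex.volume_preserving_equiv_real_prod.quasiMeasurePreserving.ae h3
  filter_upwards [h4] with z hz
  have : f (Complex.measurableEquivRealProd z) = z := by
    rw [hf]
    simp only [Complex.measurableEquivRealProd_apply]
    exact re_add_im z
  rw [this] at hz
  exact hz

theorem meas_line {A : ℂ → ℂ} (hA : Measurable A) (y u : ℂ) :
    Measurable (fun t : ℝ => A (y + (t : ℂ) * u)) :=
  hA.comp (by apply Continuous.measurable; fun_prop)

theorem ii_line {A : ℂ → ℂ} {C : ℝ} (hA : Measurable A) (hb : ∀ x, ‖A x‖ ≤ C) (y u : ℂ)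
    (a b : ℝ) : IntervalIntegrable (fun t : ℝ => A (y + (t : ℂ) * u)) volume a b := by
  have h1 : IntervalIntegrable (fun _ : ℝ => C) volume a b := intervalIntegrable_const
  refine h1.mono_fun (meas_line hA y u).aestronglyMeasurable (Eventually.of_forall (fun t => ?_))
  have h2 := hb (y + (t : ℂ) * u)
  have h3 : 0 ≤ C := (norm_nonneg _).trans h2
  rw [Real.norm_eq_abs, abs_of_nonneg h3]
  exact h2

theorem Pot.holo {K A B : ℂ → ℂ} {C : ℝ} (h : Pot K A B C) {P : Set ℂ} (hP : IsOpen P)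
    (hB : ∀ᵐ x : ℂ, x ∈ P → B x = 0) : DifferentiableOn ℂ K P := by
  rw [← isConservativeOn_and_continuousOn_iff_isDifferentiableOn hP]
  refine ⟨?_, h.cont.continuousOn⟩
  intro z w hzw
  rw [← add_eq_zero_iff_eq_neg, wedgeIntegral_add_wedgeIntegral_eq]
  have hR : ([[z.re, w.re]] ×ℂ [[z.im, w.im]]) ⊆ P := hzw
  -- bottom minus top
  have hKi : ∀ (c : ℂ) (u : ℂ) (a b : ℝ),
      IntervalIntegrable (fun t : ℝ => K (c + (t : ℂ) * u)) volume a b := by
    intro c u a b
    apply Continuous.intervalIntegrable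
    exact h.cont.comp (by fun_prop)
  have e1 : (∫ x : ℝ in z.re..w.re, K (x + z.im * I)) - (∫ x : ℝ in z.re..w.re, K (x + w.im * I)) =
      - ∫ x : ℝ in z.re..w.re, ∫ y : ℝ in z.im..w.im,
        (1 / 2) * (A ((x : ℂ) + (y : ℂ) * I) + B ((x : ℂ) + (y : ℂ) * I)) := by
    rw [← intervalIntegral.integral_sub, ← intervalIntegral.integral_neg]
    · apply intervalIntegral.integral_congr
      intro x _
      simp only
      have h1 := h.diff ((x : ℂ) + (z.im : ℂ) * I) I (w.im - z.im)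
      have h2 : (x : ℂ) + (z.im : ℂ) * I + ((w.im - z.im : ℝ) : ℂ) * I =
          (x : ℂ) + (w.im : ℂ) * I := by push_cast; ring
      rw [h2] at h1
      have h3 : ∫ t in (0 : ℝ)..(w.im - z.im), (1 / (2 * I)) *
          (I * A ((x : ℂ) + (z.im : ℂ) * I + (t : ℂ) * I) -
            conj I * B ((x : ℂ) + (z.im : ℂ) * I + (t : ℂ) * I)) =
          ∫ y : ℝ in z.im..w.im,
        (1 / 2) * (A ((x : ℂ) + (y : ℂ) * I) + B ((x : ℂ) + (y : ℂ) * I)) := by
        have h4 := intervalIntegral.integral_comp_add_left (a := 0) (b := w.im - z.im)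
          (fun y : ℝ => (1 / 2) * (A ((x : ℂ) + (y : ℂ) * I) + B ((x : ℂ) + (y : ℂ) * I))) z.im
        rw [add_zero, add_sub_cancel] at h4
        rw [← h4]
        apply intervalIntegral.integral_congr
        intro t _
        simp only
        have h5 : (x : ℂ) + (z.im : ℂ) * I + (t : ℂ) * I =
            (x : ℂ) + ((z.im + t : ℝ) : ℂ) * I := by push_cast; ring
        rw [h5, conj_I]
        have hI : (I : ℂ) ≠ 0 := I_ne_zero
        field_simp
        ring
      rw [← h3, ← h1]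
      ring
    · have := hKi ((z.im : ℂ) * I) 1 z.re w.re
      refine this.congr (fun x _ => ?_)
      simp only [mul_one]
      rw [add_comm]
    · have := hKi ((w.im : ℂ) * I) 1 z.re w.re
      refine this.congr (fun x _ => ?_)
      simp only [mul_one]
      rw [add_comm]
  have e2 : I • (∫ y : ℝ in z.im..w.im, K (w.re + y * I)) -
      I • (∫ y : ℝ in z.im..w.im, K (z.re + y * I)) =
      ∫ y : ℝ in z.im..w.im, ∫ x : ℝ in z.re..w.re,
        (1 / 2) * (A ((x : ℂ) + (y : ℂ) * I) - B ((x : ℂ) + (y : ℂ) * I)) := by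
    rw [← smul_sub, ← intervalIntegral.integral_sub, smul_eq_mul, ← intervalIntegral.integral_const_mul]
    · apply intervalIntegral.integral_congr
      intro y _
      simp only
      have h1 := h.diff ((z.re : ℂ) + (y : ℂ) * I) 1 (w.re - z.re)
      have h2 : (z.re : ℂ) + (y : ℂ) * I + ((w.re - z.re : ℝ) : ℂ) * 1 =
          (w.re : ℂ) + (y : ℂ) * I := by push_cast; ring
      rw [h2] at h1
      rw [h1]
      rw [← intervalIntegral.integral_const_mul]
      have h4 := intervalIntegral.integral_comp_add_left (a := 0) (b := w.re - z.re)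
        (fun x : ℝ => (1 / 2) * (A ((x : ℂ) + (y : ℂ) * I) - B ((x : ℂ) + (y : ℂ) * I))) z.re
      rw [add_zero, add_sub_cancel] at h4
      rw [← h4]
      apply intervalIntegral.integral_congr
      intro t _
      simp only
      have h5 : (z.re : ℂ) + (y : ℂ) * I + (t : ℂ) * 1 =
          ((z.re + t : ℝ) : ℂ) + (y : ℂ) * I := by push_cast; ring
      rw [h5, map_one]
      have hI : (I : ℂ) ≠ 0 := I_ne_zero
      field_simp
    · exact hKi (w.re : ℂ) I z.im w.im
    · exact hKi (z.re : ℂ) I z.im w.im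
  -- `B` does not contribute
  have hBl := ae_lines hB
  have hBl' := ae_lines' hB
  have e3 : ∫ x : ℝ in z.re..w.re, ∫ y : ℝ in z.im..w.im,
        (1 / 2) * (A ((x : ℂ) + (y : ℂ) * I) + B ((x : ℂ) + (y : ℂ) * I)) =
      ∫ x : ℝ in z.re..w.re, ∫ y : ℝ in z.im..w.im, (1 / 2) * A ((x : ℂ) + (y : ℂ) * I) := by
    apply intervalIntegral.integral_congr_ae
    filter_upwards [hBl] with x hx hxm
    apply intervalIntegral.integral_congr_ae
    filter_upwards [hx] with y hy hym
    rw [hy (hR ⟨by simpa using uIoc_subset_uIcc hxm, by simpa using uIoc_subset_uIcc hym⟩), add_zero]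
  have e4 : ∫ y : ℝ in z.im..w.im, ∫ x : ℝ in z.re..w.re,
        (1 / 2) * (A ((x : ℂ) + (y : ℂ) * I) - B ((x : ℂ) + (y : ℂ) * I)) =
      ∫ y : ℝ in z.im..w.im, ∫ x : ℝ in z.re..w.re, (1 / 2) * A ((x : ℂ) + (y : ℂ) * I) := by
    apply intervalIntegral.integral_congr_ae
    filter_upwards [hBl'] with y hy hym
    apply intervalIntegral.integral_congr_ae
    filter_upwards [hy] with x hx hxm
    rw [hx (hR ⟨by simpa using uIoc_subset_uIcc hxm, by simpa using uIoc_subset_uIcc hym⟩), sub_zero]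
  have e5 : ∫ x : ℝ in z.re..w.re, ∫ y : ℝ in z.im..w.im, (1 / 2) * A ((x : ℂ) + (y : ℂ) * I) =
      ∫ y : ℝ in z.im..w.im, ∫ x : ℝ in z.re..w.re, (1 / 2) * A ((x : ℂ) + (y : ℂ) * I) := by
    apply intervalIntegral_intervalIntegral_swap
    have hm : Measurable (Function.uncurry
        (fun (x y : ℝ) => (1 / 2 : ℂ) * A ((x : ℂ) + (y : ℂ) * I))) := by
      have h1 : Measurable (fun q : ℝ × ℝ => (q.1 : ℂ) + (q.2 : ℂ) * I) := by
        apply Continuous.measurable; fun_prop
      exact (h.mA.comp h1).const_mul _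
    have hfin : (volume : Measure (ℝ × ℝ)) (Ι z.re w.re ×ˢ Ι z.im w.im) ≠ ⊤ := by
      rw [Measure.volume_eq_prod, Measure.prod_prod]
      exact ENNReal.mul_ne_top measure_Ioc_lt_top.ne measure_Ioc_lt_top.ne
    have hc : IntegrableOn (fun _ : ℝ × ℝ => C) (Ι z.re w.re ×ˢ Ι z.im w.im)
        (volume : Measure (ℝ × ℝ)) := integrableOn_const hfin
    refine Integrable.mono' hc hm.aestronglyMeasurable (Eventually.of_forall (fun q => ?_))
    simp only [Function.uncurry]
    rw [norm_mul]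
    have h1 := h.bA ((q.1 : ℂ) + (q.2 : ℂ) * I)
    have h2 : ‖(1 / 2 : ℂ)‖ = 1 / 2 := by norm_num
    rw [h2]
    have := norm_nonneg (A ((q.1 : ℂ) + (q.2 : ℂ) * I))
    linarith
  rw [e3, e5] at e1
  rw [e4] at e2
  rw [e1]
  linear_combination e2

theorem Pot.deriv_le {K A B : ℂ → ℂ} {C : ℝ} (h : Pot K A B C) (x : ℂ) : ‖deriv K x‖ ≤ C := by
  have hl : LipschitzWith (Real.toNNReal C) K := by
    apply LipschitzWith.of_dist_le_mul
    intro x y
    rw [dist_eq_norm, dist_eq_norm, Real.coe_toNNReal _ h.cnonneg]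
    exact h.lip y x
  have := norm_deriv_le_of_lipschitz (x₀ := x) hl
  rwa [Real.coe_toNNReal _ h.cnonneg] at this

/-- If the potential has constant derivative then `A - B` is constant. -/
theorem Pot.AB {K A B : ℂ → ℂ} {C : ℝ} (h : Pot K A B C) {P : Set ℂ} (hP : IsOpen P)
    {c : ℂ} (hd : DifferentiableOn ℂ K P) (hc : ∀ x ∈ P, deriv K x = c) :
    ∀ᵐ x : ℂ, x ∈ P → A x - B x = 2 * I * c := by
  apply ae_of_lines
  · have h1 : MeasurableSet {z : ℂ | A z - B z = 2 * I * c} :=
      measurableSet_eq_fun (h.mA.sub h.mB) measurable_const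
    exact hP.measurableSet.imp h1
  · intro b
    set f : ℝ → ℂ := fun t => (1 / (2 * I)) * (1 * A ((b : ℂ) * I + (t : ℂ) * 1) -
      conj 1 * B ((b : ℂ) * I + (t : ℂ) * 1)) with hf
    have hfl : LocallyIntegrable f volume := by
      have hfm : Measurable f :=
        (((meas_line h.mA _ _).const_mul _).sub ((meas_line h.mB _ _).const_mul _)).const_mul _
      have hcl : LocallyIntegrable (fun _ : ℝ => C) volume := continuous_const.locallyIntegrable
      refine hcl.mono hfm.aestronglyMeasurable (Eventually.of_forall (fun t => ?_))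
      · have e1 : ‖(1 / (2 * I) : ℂ)‖ = 1 / 2 := by
          rw [norm_div, norm_one, norm_mul, norm_I, mul_one]
          norm_num
        rw [hf]
        simp only
        rw [norm_mul, e1, Real.norm_eq_abs, abs_of_nonneg h.cnonneg, map_one, one_mul, one_mul]
        have g1 := h.bA ((b : ℂ) * I + (t : ℂ) * 1)
        have g2 := h.bB ((b : ℂ) * I + (t : ℂ) * 1)
        have g3 := norm_sub_le (A ((b : ℂ) * I + (t : ℂ) * 1)) (B ((b : ℂ) * I + (t : ℂ) * 1))
        linarith
    filter_upwards [_root_.LocallyIntegrable.ae_hasDerivAt_integral hfl] with a ha haP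
    have h1 := ha 0
    have h2 : (fun x : ℝ => ∫ t in (0 : ℝ)..x, f t) =
        fun x : ℝ => K ((b : ℂ) * I + (x : ℂ) * 1) - K ((b : ℂ) * I) := by
      funext x
      rw [h.diff]
    rw [h2] at h1
    have h3 : (a : ℂ) + (b : ℂ) * I = (b : ℂ) * I + (a : ℂ) * 1 := by ring
    rw [h3] at haP ⊢
    have h4 : HasDerivAt K c ((b : ℂ) * I + (a : ℂ) * 1) := by
      have := (hd.differentiableAt (hP.mem_nhds haP)).hasDerivAt
      rwa [hc _ haP] at this
    have h5 : HasDerivAt (fun x : ℝ => (b : ℂ) * I + (x : ℂ) * 1) 1 a := by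
      have h6 : HasDerivAt (fun x : ℝ => (x : ℂ)) 1 a := ofRealCLM.hasDerivAt
      have := (h6.mul_const (1 : ℂ)).const_add ((b : ℂ) * I)
      simpa using this
    have h6 : HasDerivAt (fun x : ℝ => K ((b : ℂ) * I + (x : ℂ) * 1)) (c * 1) a :=
      h4.comp a h5
    have h7 := h6.sub_const (K ((b : ℂ) * I))
    have h8 := h1.unique h7
    rw [hf] at h8
    simp only [map_one, one_mul, mul_one] at h8
    have hI : (I : ℂ) ≠ 0 := I_ne_zero
    simp only [mul_one]
    have h9 : (2 * I) * (1 / (2 * I) * (A (↑b * I + ↑a) - B (↑b * I + ↑a))) = (2 * I) * c := by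
      rw [h8]
    have h10 : (2 * I) * (1 / (2 * I) * (A (↑b * I + ↑a) - B (↑b * I + ↑a))) =
        A (↑b * I + ↑a) - B (↑b * I + ↑a) := by
      field_simp
    rw [← h10, h9]

end Pool.Agent.Lib.BilH
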