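import Pool.Agent.Lib.MP_7bc51d_an_mode.Holo
import Pool.Agent.Lib.MP_7bc51d_an.Symm

set_option autoImplicit false

namespace Pool.Agent.Lib.BilH

open Complex MeasureTheory Set Filter
open scoped ComplexConjugate Topology ENNReal
open Pool.Agent.Lib.Bil

variable {n : ℕ} {v : Fin n → ℂ}

/-- Complex moment of a line function. -/
noncomputable def cm (F : ℂ → ℝ → ℝ) (φ : ℂ → ℂ) (x : ℂ) : ℂ :=
  ∫ w in BV, ((F w (cr w x) : ℝ) : ℂ) * φ w

/-- Complex moment of the primitive of a line function. -/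
noncomputable def gm (F : ℂ → ℝ → ℝ) (φ : ℂ → ℂ) (x : ℂ) : ℂ :=
  ∫ w in BV, ((Gp F w (cr w x) : ℝ) : ℂ) * φ w

theorem cintOn_ball {g : ℂ → ℂ} (hg : Measurable g) {C : ℝ} (hb : ∀ w ∈ BV, ‖g w‖ ≤ C) :
    IntegrableOn g BV := by
  have h1 : IntegrableOn (fun _ : ℂ => C) BV :=
    integrableOn_const (measure_ball_lt_top.ne)
  refine Integrable.mono' h1 hg.aestronglyMeasurable ?_
  rw [ae_restrict_iff' measurableSet_ball]
  exact Eventually.of_forall (fun w hw => hb w hw)

theorem cm_int {F : ℂ → ℝ → ℝ} (hF : LF F) {φ : ℂ → ℂ} (hφ : Measurable φ) {C : ℝ}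
    (hb : ∀ w ∈ BV, ‖φ w‖ ≤ C) (x : ℂ) :
    IntegrableOn (fun w => ((F w (cr w x) : ℝ) : ℂ) * φ w) BV := by
  refine cintOn_ball ((measurable_ofReal.comp (F_meas_x hF x)).mul hφ) (C := C) ?_
  intro w hw
  rw [norm_mul, norm_real, Real.norm_eq_abs]
  have h1 := hF.bd w (cr w x)
  have h2 := hb w hw
  calc _ ≤ 1 * C := by gcongr
    _ = C := one_mul C

theorem cm_meas {F : ℂ → ℝ → ℝ} (hF : LF F) {φ : ℂ → ℂ} (hφ : Measurable φ) :
    Measurable (cm F φ) := by
  unfold cm
  have h1 : Measurable (fun z : ℂ × ℂ => ((F z.2 (cr z.2 z.1) : ℝ) : ℂ) * φ z.2) := by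
    have hc1 : Measurable (fun z : ℂ × ℂ => cr z.2 z.1) := by
      apply Continuous.measurable; unfold cr; fun_prop
    exact (measurable_ofReal.comp (hF.meas.comp (measurable_snd.prodMk hc1))).mul
      (hφ.comp measurable_snd)
  have h2 : StronglyMeasurable (Function.uncurry
      (fun (x w : ℂ) => ((F w (cr w x) : ℝ) : ℂ) * φ w)) := h1.stronglyMeasurable
  exact h2.integral_prod_right.measurable

theorem cm_norm {F : ℂ → ℝ → ℝ} (hF : LF F) {φ : ℂ → ℂ} {C : ℝ}
    (hb : ∀ w ∈ BV, ‖φ w‖ ≤ C) (x : ℂ) : ‖cm F φ x‖ ≤ C * (volume BV).toReal := by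
  unfold cm
  refine norm_setIntegral_le_of_norm_le_const measure_ball_lt_top ?_
  intro w hw
  rw [norm_mul, norm_real, Real.norm_eq_abs]
  have h1 := hF.bd w (cr w x)
  have h2 := hb w hw
  calc _ ≤ 1 * C := by gcongr
    _ = C := one_mul C

theorem gm_int {F : ℂ → ℝ → ℝ} (hF : LF F) {φ : ℂ → ℂ} (hφ : Measurable φ)
    (hb : ∀ w ∈ BV, ‖φ w‖ ≤ 1) (x : ℂ) :
    IntegrableOn (fun w => ((Gp F w (cr w x) : ℝ) : ℂ) * φ w) BV := by
  refine cintOn_ball ((measurable_ofReal.comp (Gp_meas_x hF x)).mul hφ) (C := ‖x‖) ?_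
  intro w hw
  rw [norm_mul, norm_real, Real.norm_eq_abs]
  have h1 : |Gp F w (cr w x)| ≤ ‖x‖ := by
    refine (Gp_abs hF w _).trans ((abs_cr_le w x).trans ?_)
    have := (norm_lt_of_BV hw).le
    calc ‖w‖ * ‖x‖ ≤ 1 * ‖x‖ := by gcongr
      _ = ‖x‖ := one_mul _
  have h2 := hb w hw
  calc _ ≤ ‖x‖ * 1 := by gcongr
    _ = ‖x‖ := mul_one _

theorem cr_complex (w u : ℂ) : ((cr w u : ℝ) : ℂ) = (1 / (2 * I)) * (u * conj w - conj u * w) := by
  have hI : (I : ℂ) ≠ 0 := I_ne_zero
  have h1 : u * conj w - conj u * w = (cr w u : ℂ) * (2 * I) := by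
    apply Complex.ext
    · simp [cr]
    · simp [cr]; ring
  rw [h1]
  field_simp

theorem gm_diff {F : ℂ → ℝ → ℝ} (hF : LF F) {φ : ℂ → ℂ} (hφ : Measurable φ)
    (hb : ∀ w ∈ BV, ‖φ w‖ ≤ 1) (y u : ℂ) (s : ℝ) :
    gm F φ (y + (s : ℂ) * u) - gm F φ y =
      ∫ t in (0 : ℝ)..s, (1 / (2 * I)) * (u * cm F (fun w => conj w * φ w) (y + (t : ℂ) * u) -
        conj u * cm F (fun w => w * φ w) (y + (t : ℂ) * u)) := by
  unfold gm
  rw [← integral_sub (gm_int hF hφ hb _) (gm_int hF hφ hb _)]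
  have h1 : ∀ w : ℂ, ((Gp F w (cr w (y + (s : ℂ) * u)) : ℝ) : ℂ) * φ w -
      ((Gp F w (cr w y) : ℝ) : ℂ) * φ w =
      ∫ t in (0 : ℝ)..s, ((F w (cr w (y + (t : ℂ) * u)) * cr w u : ℝ) : ℂ) * φ w := by
    intro w
    rw [intervalIntegral.integral_mul_const, ← sub_mul, ← ofReal_sub]
    congr 1
    rw [cr_add_right, cr_smul_right, Gp_add hF, ← intervalIntegral.integral_ofReal]
    apply intervalIntegral.integral_congr
    intro t _
    simp only
    rw [cr_add_right, cr_smul_right]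
  simp_rw [h1]
  have h2 : ∀ t : ℝ, (1 / (2 * I)) * (u * cm F (fun w => conj w * φ w) (y + (t : ℂ) * u) -
        conj u * cm F (fun w => w * φ w) (y + (t : ℂ) * u)) =
      ∫ w in BV, ((F w (cr w (y + (t : ℂ) * u)) * cr w u : ℝ) : ℂ) * φ w := by
    intro t
    unfold cm
    have hm1 : Measurable (fun w : ℂ => conj w * φ w) :=
      (continuous_conj.measurable).mul hφ
    have hm2 : Measurable (fun w : ℂ => w * φ w) := measurable_id.mul hφ
    have hb1 : ∀ w ∈ BV, ‖conj w * φ w‖ ≤ 1 := by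
      intro w hw
      rw [norm_mul, RCLike.norm_conj]
      have g1 := (norm_lt_of_BV hw).le
      have g2 := hb w hw
      calc _ ≤ (1 : ℝ) * 1 := by gcongr
        _ = 1 := one_mul 1
    have hb2 : ∀ w ∈ BV, ‖w * φ w‖ ≤ 1 := by
      intro w hw
      rw [norm_mul]
      have g1 := (norm_lt_of_BV hw).le
      have g2 := hb w hw
      calc _ ≤ (1 : ℝ) * 1 := by gcongr
        _ = 1 := one_mul 1
    rw [← integral_const_mul, ← integral_const_mul, ← integral_sub, ← integral_const_mul]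
    · apply integral_congr_ae
      refine Eventually.of_forall (fun w => ?_)
      simp only
      rw [ofReal_mul, cr_complex]
      ring
    · exact (cm_int hF hm1 hb1 _).const_mul _
    · exact (cm_int hF hm2 hb2 _).const_mul _
  simp_rw [h2]
  rw [intervalIntegral_integral_swap]
  have h3 : Measurable (fun z : ℝ × ℂ =>
      ((F z.2 (cr z.2 (y + (z.1 : ℂ) * u)) * cr z.2 u : ℝ) : ℂ) * φ z.2) := by
    have hc1 : Measurable (fun z : ℝ × ℂ => cr z.2 (y + (z.1 : ℂ) * u)) := by
      apply Continuous.measurable; unfold cr; fun_prop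
    have hc2 : Measurable (fun z : ℝ × ℂ => cr z.2 u) := by
      apply Continuous.measurable; unfold cr; fun_prop
    exact (measurable_ofReal.comp ((hF.meas.comp (measurable_snd.prodMk hc1)).mul hc2)).mul
      (hφ.comp measurable_snd)
  have h4 : Integrable (fun _ : ℝ × ℂ => ‖u‖)
      ((volume.restrict (uIoc 0 s)).prod (volume.restrict BV)) := by
    have : IsFiniteMeasure ((volume : Measure ℝ).restrict (uIoc 0 s)) := by
      constructor
      rw [Measure.restrict_apply_univ]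
      exact measure_Ioc_lt_top
    have : IsFiniteMeasure ((volume : Measure ℂ).restrict BV) := by
      constructor
      rw [Measure.restrict_apply_univ]
      exact measure_ball_lt_top
    exact integrable_const _
  refine Integrable.mono' h4 h3.aestronglyMeasurable ?_
  have h5 : ∀ᵐ z ∂((volume : Measure ℝ).restrict (uIoc 0 s)).prod ((volume : Measure ℂ).restrict BV),
      z.2 ∈ BV := by
    have h6 : ∀ᵐ w' ∂((volume : Measure ℂ).restrict BV), w' ∈ BV :=
      ae_restrict_mem measurableSet_ball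
    exact Measure.quasiMeasurePreserving_snd.ae h6
  filter_upwards [h5] with z hz
  simp only [Function.uncurry]
  rw [norm_mul, norm_real, Real.norm_eq_abs, abs_mul]
  have g1 := hF.bd z.2 (cr z.2 (y + (z.1 : ℂ) * u))
  have g2 : |cr z.2 u| ≤ ‖u‖ := by
    refine (abs_cr_le z.2 u).trans ?_
    have := (norm_lt_of_BV hz).le
    calc ‖z.2‖ * ‖u‖ ≤ 1 * ‖u‖ := by gcongr
      _ = ‖u‖ := one_mul _
  have g3 := hb z.2 hz
  calc _ ≤ 1 * ‖u‖ * 1 := by gcongr
    _ = ‖u‖ := by ring

/-- The monomials. -/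
noncomputable def ph (k : ℕ) (w : ℂ) : ℂ := conj w ^ k

theorem ph_meas (k : ℕ) : Measurable (ph k) := by
  unfold ph
  exact (continuous_conj.measurable).pow_const k

theorem ph_norm (k : ℕ) {w : ℂ} (hw : w ∈ BV) : ‖ph k w‖ ≤ 1 := by
  unfold ph
  rw [norm_pow, RCLike.norm_conj]
  exact pow_le_one₀ (norm_nonneg _) (norm_lt_of_BV hw).le

theorem wph_norm (k : ℕ) {w : ℂ} (hw : w ∈ BV) : ‖w * ph k w‖ ≤ 1 := by
  rw [norm_mul]
  have g1 := (norm_lt_of_BV hw).le
  have g2 := ph_norm k hw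
  calc _ ≤ (1 : ℝ) * 1 := by gcongr
    _ = 1 := one_mul 1

theorem pot_gm {F : ℂ → ℝ → ℝ} (hF : LF F) (k : ℕ) :
    Pot (gm F (ph k)) (cm F (ph (k + 1))) (cm F (fun w => w * ph k w)) (volume BV).toReal where
  mA := cm_meas hF (ph_meas _)
  mB := cm_meas hF (measurable_id.mul (ph_meas _))
  bA := fun x => by
    have := cm_norm hF (φ := ph (k + 1)) (C := 1) (fun w hw => ph_norm _ hw) x
    rwa [one_mul] at this
  bB := fun x => by
    have := cm_norm hF (φ := fun w => w * ph k w) (C := 1) (fun w hw => wph_norm _ hw) x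
    rwa [one_mul] at this
  diff := by
    intro y u s
    have h := gm_diff hF (ph_meas k) (fun w hw => ph_norm k hw) y u s
    have h2 : (fun w : ℂ => conj w * ph k w) = ph (k + 1) := by
      funext w
      unfold ph
      rw [pow_succ]
      ring
    rw [h2] at h
    exact h

theorem Pot.conj {K A B : ℂ → ℂ} {C : ℝ} (h : Pot K A B C) :
    Pot (fun x => conj (K x)) (fun x => conj (B x)) (fun x => conj (A x)) C where
  mA := continuous_conj.measurable.comp h.mB
  mB := continuous_conj.measurable.comp h.mA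
  bA := fun x => by rw [RCLike.norm_conj]; exact h.bB x
  bB := fun x => by rw [RCLike.norm_conj]; exact h.bA x
  diff := by
    intro y u s
    have hcI : ∀ (f : ℝ → ℂ) (a b : ℝ), (starRingEnd ℂ) (∫ t in a..b, f t) =
        ∫ t in a..b, (starRingEnd ℂ) (f t) := by
      intro f a b
      unfold intervalIntegral
      rw [map_sub, ← integral_conj, ← integral_conj]
    rw [← map_sub, h.diff, hcI]
    apply intervalIntegral.integral_congr
    intro t _
    simp only [map_mul, map_sub, map_div₀, map_one, conj_conj, conj_I]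
    have hI : (I : ℂ) ≠ 0 := I_ne_zero
    have h2 : (starRingEnd ℂ) 2 = 2 := by
      have : ((2 : ℝ) : ℂ) = 2 := by norm_num
      rw [← this, conj_ofReal]
    rw [h2]
    field_simp
    ring

/-- The values of the potential on a side lie on a line. -/
theorem gm_side {F : ℂ → ℝ → ℝ} (hF : LF F) {a e : ℂ} (he : e ≠ 0) (hs : SymAt F a e) (k : ℕ)
    {t : ℝ} (ht : t ∈ Icc (0 : ℝ) 1) :
    ∃ τ : ℝ, gm F (ph k) (a + (t : ℂ) * e) - gm F (ph k) a = τ * (I * conj e ^ k) := by
  set D : ℂ := gm F (ph k) (a + (t : ℂ) * e) - gm F (ph k) a with hD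
  have hce : conj e ≠ 0 := by simpa using he
  set g : ℂ → ℂ := fun w => ((Sm F a e t w * cr w e : ℝ) : ℂ) * ph k w with hg
  have h1 : D = ∫ w in BV, g w := by
    rw [hD]
    unfold gm
    rw [← integral_sub (gm_int hF (ph_meas k) (fun w hw => ph_norm k hw) _)
      (gm_int hF (ph_meas k) (fun w hw => ph_norm k hw) _)]
    apply integral_congr_ae
    refine Eventually.of_forall (fun w => ?_)
    simp only [hg]
    rw [← sub_mul, ← ofReal_sub, Gp_side hF]
  have h2 : ∫ w in BV, g (rl e w) = ∫ w in BV, g w :=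
    (mp_rl_BV he).integral_comp (rl_emb he) g
  have h3 : ∫ w in BV, g (rl e w) = ∫ w in BV, -((conj e / e) ^ k) * conj (g w) := by
    apply integral_congr_ae
    apply ae_restrict_of_ae
    filter_upwards [Sm_symm hs] with w hw
    simp only [hg]
    rw [hw t ht, cr_rl_left he]
    have h4 : ph k (rl e w) = (conj e / e) ^ k * conj (ph k w) := by
      unfold ph rl
      simp only [map_mul, map_div₀, map_pow, conj_conj]
      rw [mul_pow]
    rw [h4, map_mul, conj_ofReal]
    push_cast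
    ring
  have h4 : D = -((conj e / e) ^ k) * conj D := by
    rw [h1, ← integral_conj, ← integral_const_mul, ← h3, h2]
  have h5 : e ^ k * D = - conj (e ^ k * D) := by
    rw [map_mul, map_pow]
    conv_lhs => rw [h4]
    rw [div_pow]
    field_simp
  have h6 : (e ^ k * D).re = 0 := by
    have := congrArg Complex.re h5
    rw [neg_re, conj_re] at this
    linarith
  set σ : ℝ := (e ^ k * D).im with hσ
  have h7 : e ^ k * D = (σ : ℂ) * I := by
    apply Complex.ext
    · rw [h6]; simp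
    · simp [hσ]
  have hN : (Complex.normSq e) ≠ 0 := by
    rw [Ne, Complex.normSq_eq_zero]; exact he
  refine ⟨σ / (Complex.normSq e) ^ k, ?_⟩
  have h8 : (conj e * e) = ((Complex.normSq e : ℝ) : ℂ) :=
    (Complex.normSq_eq_conj_mul_self).symm
  have h9 : D = ((σ : ℂ) * I) / e ^ k := by
    rw [← h7]; field_simp
  rw [h9]
  push_cast
  rw [← h8, mul_pow]
  field_simp

theorem lines_gm {F : ℂ → ℝ → ℝ} (hF : LF F) (hv : ConvexIndependent ℝ v)
    (hs : ∀ i j, IsSide v i j → SymAt F (v i) (v j - v i)) (k : ℕ) :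
    SideLines v (gm F (ph k)) (fun i j => I * conj (v j - v i) ^ k) := by
  intro i j hij
  have hne := v_sub_ne hv hij.1
  refine ⟨mul_ne_zero I_ne_zero (pow_ne_zero _ ((map_ne_zero _).2 hne)), ?_⟩
  intro t ht
  exact gm_side hF hne (hs i j hij) k ht

theorem lines_gm_conj {F : ℂ → ℝ → ℝ} (hF : LF F) (hv : ConvexIndependent ℝ v)
    (hs : ∀ i j, IsSide v i j → SymAt F (v i) (v j - v i)) (k : ℕ) :
    SideLines v (fun x => conj (gm F (ph k) x)) (fun i j => I * (v j - v i) ^ k) := by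
  intro i j hij
  have hne := v_sub_ne hv hij.1
  refine ⟨mul_ne_zero I_ne_zero (pow_ne_zero _ hne), ?_⟩
  intro t ht
  obtain ⟨τ, hτ⟩ := gm_side hF hne (hs i j hij) k ht
  refine ⟨-τ, ?_⟩
  rw [← map_sub, hτ, map_mul, map_mul, map_pow, conj_conj, conj_I, conj_ofReal]
  push_cast
  ring

/-- Boundary condition for the constant derivative. -/
theorem neumann_side (hn : 3 ≤ n) (hv : ConvexIndependent ℝ v) {K : ℂ → ℂ} (hK : Continuous K)
    (hd : DifferentiableOn ℂ K (PP v)) {L : Fin n → Fin n → ℂ} (hL : SideLines v K L) {c : ℂ}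
    (hc : ∀ x ∈ PP v, deriv K x = c) {i j : Fin n} (hij : IsSide v i j) :
    ∃ t : ℝ, c * (v j - v i) = t * L i j := by
  have h0 : ∀ x ∈ PP v, ∀ y ∈ PP v, K x - c * x = K y - c * y := by
    intro x hx y hy
    have hd2 : DifferentiableOn ℂ (fun x => K x - c * x) (PP v) :=
      hd.sub ((differentiableOn_id).const_mul c)
    have h1 : EqOn (deriv (fun x => K x - c * x)) 0 (PP v) := by
      intro z hz
      have h2 := (hd.differentiableAt (isOpen_PP.mem_nhds hz)).hasDerivAt
      rw [hc z hz] at h2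
      have h3 : HasDerivAt (fun x : ℂ => c * x) c z := by
        simpa using (hasDerivAt_id z).const_mul c
      have h4 := (h2.sub h3).deriv
      rw [sub_self] at h4
      exact h4
    exact isOpen_PP.is_const_of_deriv_eq_zero convex_PP.isPreconnected hd2 h1 hx hy
  obtain ⟨z0, hz0⟩ := PP_nonempty hn hv
  have hcl : closure (PP v) = KK v := by
    unfold PP
    rw [convex_KK.closure_interior_eq_closure_of_nonempty_interior ⟨z0, hz0⟩,
      isClosed_KK.closure_eq]
  have h1 : ∀ x ∈ KK v, K x - c * x = K z0 - c * z0 := by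
    intro x hx
    rw [← hcl] at hx
    have hclosed : IsClosed {x : ℂ | K x - c * x = K z0 - c * z0} :=
      isClosed_eq (hK.sub (by fun_prop)) continuous_const
    have hsub : PP v ⊆ {x : ℂ | K x - c * x = K z0 - c * z0} := fun x hx => h0 x hx z0 hz0
    exact closure_minimal hsub hclosed hx
  obtain ⟨t, ht⟩ := (hL i j hij).2 1 ⟨zero_le_one, le_rfl⟩
  rw [ofReal_one, one_mul, add_sub_cancel] at ht
  refine ⟨t, ?_⟩
  rw [← ht]
  have g1 := h1 (v j) (vert_mem_KK j)
  have g2 := h1 (v i) (vert_mem_KK i)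
  linear_combination g2 - g1

end Pool.Agent.Lib.BilH
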