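import Pool.Agent.Lib.MP_7bc51d_an_mode.Corner
import Pool.Agent.Lib.MP_7bc51d_an.Potential

set_option autoImplicit false

namespace Pool.Agent.Lib.BilH

open Complex MeasureTheory Set Filter
open scoped ComplexConjugate Topology ENNReal
open Pool.Agent.Lib.Bil

variable {n : ℕ} {v : Fin n → ℂ}

theorem exists_cluster {U : Set ℂ} (hne : U.Nonempty) (hb : Bornology.IsBounded U) (φ : ℂ → ℝ) :
    ∃ z ∈ closure U, ∀ δ > 0, ∀ η > 0, ∃ x ∈ U ∩ Metric.ball z δ, sSup (φ '' U) - η < φ x := by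
  have h1 : ∀ k : ℕ, ∃ x ∈ U, sSup (φ '' U) - 1 / ((k : ℝ) + 1) < φ x := by
    intro k
    have h2 : sSup (φ '' U) - 1 / ((k : ℝ) + 1) < sSup (φ '' U) := by
      have : (0 : ℝ) < 1 / ((k : ℝ) + 1) := by positivity
      linarith
    obtain ⟨_, ⟨x, hx, rfl⟩, hlt⟩ := exists_lt_of_lt_csSup (hne.image φ) h2
    exact ⟨x, hx, hlt⟩
  choose x hxU hx using h1
  have hcpt : IsCompact (closure U) := hb.isCompact_closure
  obtain ⟨z, hz, ψ, hψ, hlim⟩ := hcpt.tendsto_subseq (fun k => subset_closure (hxU k))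
  refine ⟨z, hz, ?_⟩
  intro δ hδ η hη
  have h3 : ∀ᶠ k in atTop, x (ψ k) ∈ Metric.ball z δ :=
    hlim.eventually (Metric.isOpen_ball.mem_nhds (Metric.mem_ball_self hδ))
  have h4 : ∀ᶠ k : ℕ in atTop, 1 / ((k : ℝ) + 1) < η :=
    tendsto_one_div_add_atTop_nhds_zero_nat.eventually (gt_mem_nhds hη)
  obtain ⟨k, hk1, hk2⟩ := (h3.and (hψ.tendsto_atTop.eventually h4)).exists
  refine ⟨x (ψ k), ⟨hxU _, hk1⟩, ?_⟩
  have := hx (ψ k)
  linarith

/-- Attaining the supremum of the weighted derivative. -/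
theorem attain {K : ℂ → ℂ} {P : Set ℂ} (hK : Continuous K) (hP : IsOpen P)
    (hd : DifferentiableOn ℂ K P) {z a : ℂ} (haz : a ≠ z) {ε S δ0 : ℝ} (hδ0 : 0 < δ0)
    (hz : z ∈ P ∨ ∃ e l ρ, SideAt K P z e l ρ ∧ cr e (a - z) = 0)
    (hM : ∀ x ∈ P ∩ Metric.ball z δ0, ‖deriv K x‖ * ‖x - a‖ ^ ε ≤ S)
    (happ : ∀ δ > 0, ∀ η > 0, ∃ x ∈ P ∩ Metric.ball z δ, S - η < ‖deriv K x‖ * ‖x - a‖ ^ ε) :
    ∃ x ∈ P ∩ Metric.ball z δ0, ‖deriv K x‖ * ‖x - a‖ ^ ε = S := by
  rcases hz with hz | ⟨e, l, ρ, hs, hal⟩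
  · refine ⟨z, ⟨hz, Metric.mem_ball_self hδ0⟩, ?_⟩
    have hle := hM z ⟨hz, Metric.mem_ball_self hδ0⟩
    refine le_antisymm hle ?_
    by_contra hcon
    push Not at hcon
    have hc1 : ContinuousAt (fun x => ‖deriv K x‖) z :=
      ((hd.deriv hP).continuousOn.continuousAt (hP.mem_nhds hz)).norm
    have hc2 : ContinuousAt (fun x : ℂ => ‖x - a‖ ^ ε) z := by
      apply ContinuousAt.rpow_const
      · fun_prop
      · left
        exact norm_ne_zero_iff.2 (sub_ne_zero.2 haz.symm)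
    have hc := hc1.mul hc2
    set m : ℝ := (‖deriv K z‖ * ‖z - a‖ ^ ε + S) / 2 with hm
    have h1 : ‖deriv K z‖ * ‖z - a‖ ^ ε < m := by rw [hm]; linarith
    have h2 : m < S := by rw [hm]; linarith
    have h3 : ∀ᶠ x in 𝓝 z, ‖deriv K x‖ * ‖x - a‖ ^ ε < m := hc.eventually (gt_mem_nhds h1)
    obtain ⟨δ, hδ, hδb⟩ := Metric.eventually_nhds_iff_ball.1 h3
    obtain ⟨x, hx, hxM⟩ := happ δ hδ (S - m) (by linarith)
    have := hδb x hx.2
    linarith
  · obtain ⟨x, hx1, hx2⟩ := local_max (ρ := min ρ δ0) hK hP hd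
      (hs.mono (lt_min hs.hρ hδ0) (min_le_left _ _)) haz hal
      (fun x hx => hM x ⟨hx.1, Metric.ball_subset_ball (min_le_right _ _) hx.2⟩) happ
    exact ⟨x, ⟨hx1.1, Metric.ball_subset_ball (min_le_right _ _) hx1.2⟩, hx2⟩

theorem attain0 {K : ℂ → ℂ} {P : Set ℂ} (hK : Continuous K) (hP : IsOpen P)
    (hd : DifferentiableOn ℂ K P) {z : ℂ} {S δ0 : ℝ} (hδ0 : 0 < δ0)
    (hz : z ∈ P ∨ ∃ e l ρ, SideAt K P z e l ρ)
    (hM : ∀ x ∈ P ∩ Metric.ball z δ0, ‖deriv K x‖ ≤ S)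
    (happ : ∀ δ > 0, ∀ η > 0, ∃ x ∈ P ∩ Metric.ball z δ, S - η < ‖deriv K x‖) :
    ∃ x ∈ P ∩ Metric.ball z δ0, ‖deriv K x‖ = S := by
  rcases hz with hz | ⟨e, l, ρ, hs⟩
  · have := attain (a := z + 1) (ε := 0) (S := S) hK hP hd (by simp) hδ0 (Or.inl hz)
      (by simpa using hM) (by simpa using happ)
    simpa using this
  · have := attain (a := z + e) (ε := 0) (S := S) hK hP hd (by simpa using hs.he) hδ0
      (Or.inr ⟨e, l, ρ, hs, by rw [add_sub_cancel_left, cr_self]⟩)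
      (by simpa using hM) (by simpa using happ)
    simpa using this

theorem vert_not_mem (hn : 3 ≤ n) (hv : ConvexIndependent ℝ v) (k : Fin n) : v k ∉ PP v := by
  intro h
  have h1 := (nxt_side hn hv k).cr_pos hv h
  rw [sub_self, cr_zero_right] at h1
  exact lt_irrefl _ h1

theorem ev_small {c d : ℝ} (hc : 0 < c) : ∀ᶠ r : ℝ in 𝓝[>] 0, r * d < c := by
  have h1 : Tendsto (fun r : ℝ => r * d) (𝓝[>] 0) (𝓝 (0 * d)) := by
    have : Continuous (fun r : ℝ => r * d) := by fun_prop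
    exact (this.tendsto 0).mono_left nhdsWithin_le_nhds
  rw [zero_mul] at h1
  exact h1.eventually (gt_mem_nhds hc)

/-- A good radius at a vertex. -/
theorem exists_radius (hn : 3 ≤ n) (hv : ConvexIndependent ℝ v) {K : ℂ → ℂ}
    {L : Fin n → Fin n → ℂ} (hL : SideLines v K L) (k : Fin n) {z0 : ℂ} (hz0 : z0 ∈ PP v) :
    ∃ r : ℝ, 0 < r ∧ r < ‖z0 - v k‖ ∧ ∀ z ∈ KK v, z ≠ v k → ‖z - v k‖ ≤ r →
      (z ∈ PP v ∨ ∃ e l ρ, SideAt K (PP v) z e l ρ ∧ cr e (v k - z) = 0) := by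
  have hz0a : 0 < ‖z0 - v k‖ := by
    rw [norm_pos_iff, sub_ne_zero]
    rintro rfl
    exact vert_not_mem hn hv k hz0
  have h1 : ∀ᶠ r : ℝ in 𝓝[>] 0, ∀ m, v m ≠ v k → r * 1 < ‖v m - v k‖ := by
    rw [eventually_all]
    intro m
    by_cases h : v m = v k
    · exact Eventually.of_forall (fun r h' => absurd h h')
    · filter_upwards [ev_small (c := ‖v m - v k‖) (d := 1)
        (norm_pos_iff.2 (sub_ne_zero.2 h))] with r hr _
      exact hr
  have h2 : ∀ᶠ r : ℝ in 𝓝[>] 0, ∀ i j, 0 < cr (v j - v i) (v k - v i) →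
      r * ‖v j - v i‖ < cr (v j - v i) (v k - v i) := by
    rw [eventually_all]
    intro i
    rw [eventually_all]
    intro j
    by_cases h : 0 < cr (v j - v i) (v k - v i)
    · filter_upwards [ev_small (d := ‖v j - v i‖) h] with r hr _
      exact hr
    · exact Eventually.of_forall (fun r h' => absurd h' h)
  have h3 : ∀ᶠ r : ℝ in 𝓝[>] 0, r * 1 < ‖z0 - v k‖ := ev_small hz0a
  have h4 : ∀ᶠ r : ℝ in 𝓝[>] (0 : ℝ), 0 < r := self_mem_nhdsWithin
  obtain ⟨r, g1, g2, g3, g4⟩ := (h1.and (h2.and (h3.and h4))).exists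
  refine ⟨r, g4, by linarith, ?_⟩
  intro z hzK hza hzr
  by_cases hzP : z ∈ PP v
  · exact Or.inl hzP
  right
  have hzv : z ∉ Set.range v := by
    rintro ⟨m, rfl⟩
    have := g1 m hza
    linarith
  obtain ⟨i, j, hij, ρ, hs, hcr⟩ := sideAt_of_lines hn hv hL hzK hzP hzv
  refine ⟨v j - v i, L i j, ρ, hs, ?_⟩
  have h5 : cr (v j - v i) (v k - z) = cr (v j - v i) (v k - v i) := by
    have : v k - z = (v k - v i) - (z - v i) := by ring
    rw [this, cr_sub_right, hcr, sub_zero]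
  have h6 : 0 ≤ cr (v j - v i) (v k - v i) := hij.cr_nonneg (vert_mem_KK k)
  rcases h6.lt_or_eq with h7 | h7
  · exfalso
    have h8 := g2 i j h7
    have h9 := (le_abs_self _).trans (abs_cr_le (v j - v i) (v k - z))
    rw [h5, norm_sub_rev (v k) z] at h9
    have h10 : ‖v j - v i‖ * ‖z - v k‖ ≤ ‖v j - v i‖ * r := by gcongr
    linarith
  · rw [h5, ← h7]

/-- A bounded holomorphic derivative with values of constant phase on each side is constant. -/
theorem neumann (hn : 3 ≤ n) (hv : ConvexIndependent ℝ v) {K : ℂ → ℂ} (hK : Continuous K)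
    (hd : DifferentiableOn ℂ K (PP v)) {C : ℝ} (hC : ∀ x ∈ PP v, ‖deriv K x‖ ≤ C)
    {L : Fin n → Fin n → ℂ} (hL : SideLines v K L) :
    ∃ c : ℂ, ∀ x ∈ PP v, deriv K x = c := by
  have hPo : IsOpen (PP v) := isOpen_PP
  have hg := hd.deriv hPo
  obtain ⟨z0, hz0⟩ := PP_nonempty hn hv
  have hC0 : 0 ≤ C := (norm_nonneg _).trans (hC z0 hz0)
  have hclK : closure (PP v) ⊆ KK v := closure_minimal PP_sub_KK isClosed_KK
  set P := PP v with hP
  set M : ℝ := sSup ((fun x => ‖deriv K x‖) '' P) with hM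
  have hbdd : BddAbove ((fun x => ‖deriv K x‖) '' P) := by
    refine ⟨C, ?_⟩
    rintro _ ⟨x, hx, rfl⟩
    exact hC x hx
  have hleM : ∀ x ∈ P, ‖deriv K x‖ ≤ M := fun x hx => le_csSup hbdd ⟨x, hx, rfl⟩
  -- attained maximum implies constant
  have hatt : (∃ x ∈ P, ‖deriv K x‖ = M) → ∃ c : ℂ, ∀ x ∈ P, deriv K x = c := by
    rintro ⟨x0, hx0, hx0M⟩
    have hmax : IsMaxOn (norm ∘ deriv K) P x0 := by
      intro x hx
      simp only [mem_ofPred_eq, Function.comp]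
      rw [hx0M]
      exact hleM x hx
    have := eqOn_of_isPreconnected_of_isMaxOn_norm convex_PP.isPreconnected hPo hg hx0 hmax
    exact ⟨deriv K x0, fun x hx => this hx⟩
  obtain ⟨y, hy, hyc⟩ := exists_cluster ⟨z0, hz0⟩ isBounded_PP (fun x => ‖deriv K x‖)
  rw [← hM] at hyc
  have hyK : y ∈ KK v := hclK hy
  by_cases hyv : y ∈ Set.range v
  swap
  · apply hatt
    have hz : y ∈ P ∨ ∃ e l ρ, SideAt K P y e l ρ := by
      by_cases hyP : y ∈ P
      · exact Or.inl hyP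
      · obtain ⟨i, j, _, ρ, hs, _⟩ := sideAt_of_lines hn hv hL hyK hyP hyv
        exact Or.inr ⟨_, _, ρ, hs⟩
    obtain ⟨x, hx1, hx2⟩ := attain0 hK hPo hd one_pos hz (fun x hx => hleM x hx.1) hyc
    exact ⟨x, hx1.1, hx2⟩
  obtain ⟨k, hk⟩ := hyv
  obtain ⟨r, hr0, hrz0, hr⟩ := exists_radius hn hv hL k hz0
  rw [hk] at hrz0 hr
  have hyP : y ∉ P := by rw [← hk]; exact vert_not_mem hn hv k
  -- the annulus
  set N : Set ℂ := {x | x ∈ P ∧ r / 3 ≤ ‖x - y‖ ∧ ‖x - y‖ < r / 2} with hN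
  have hNP : N ⊆ P := fun x hx => hx.1
  have hz0y : 0 < ‖z0 - y‖ := hr0.trans hrz0
  obtain ⟨x1, hx1⟩ : N.Nonempty := by
    set t : ℝ := (5 * r / 12) / ‖z0 - y‖ with ht
    have ht0 : 0 < t := by positivity
    have ht1 : t < 1 := by
      rw [ht, div_lt_one hz0y]; linarith
    have hnorm : ‖y + (t : ℂ) * (z0 - y) - y‖ = 5 * r / 12 := by
      rw [add_sub_cancel_left, norm_mul, norm_real, Real.norm_eq_abs, abs_of_pos ht0, ht]
      field_simp
    refine ⟨y + (t : ℂ) * (z0 - y), ?_, ?_, ?_⟩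
    · have h1 := convex_KK.combo_self_interior_mem_interior (a := 1 - t) (b := t) hyK hz0
        (by linarith) ht0 (by ring)
      have h2 : y + (t : ℂ) * (z0 - y) = (1 - t) • y + t • z0 := by
        simp only [real_smul]
        push_cast; ring
      rw [h2]
      exact h1
    · rw [hnorm]; linarith
    · rw [hnorm]; linarith
  set M₁ : ℝ := sSup ((fun x => ‖deriv K x‖) '' N) with hM₁
  have hbddN : BddAbove ((fun x => ‖deriv K x‖) '' N) := hbdd.mono (image_mono hNP)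
  have hleM₁ : ∀ x ∈ N, ‖deriv K x‖ ≤ M₁ := fun x hx => le_csSup hbddN ⟨x, hx, rfl⟩
  have hNne : N.Nonempty := ⟨x1, hx1⟩
  have hM₁M : M₁ ≤ M := csSup_le_csSup hbdd (hNne.image _) (image_mono hNP)
  have hM₁0 : 0 ≤ M₁ := (norm_nonneg _).trans (hleM₁ x1 hx1)
  have hgood : ∀ z ∈ KK v, z ≠ y → ‖z - y‖ ≤ r →
      (z ∈ P ∨ ∃ e l ρ, SideAt K P z e l ρ ∧ cr e (y - z) = 0) := hr
  by_cases hMM : M₁ = M
  · -- attained in the annulus
    apply hatt
    obtain ⟨z, hz, hzc⟩ := exists_cluster ⟨x1, hx1⟩ (isBounded_PP.subset hNP)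
      (fun x => ‖deriv K x‖)
    rw [← hM₁, hMM] at hzc
    have hzK : z ∈ KK v := hclK (closure_mono hNP hz)
    have hz1 : r / 3 ≤ ‖z - y‖ ∧ ‖z - y‖ ≤ r / 2 := by
      have hcl : IsClosed {x : ℂ | r / 3 ≤ ‖x - y‖ ∧ ‖x - y‖ ≤ r / 2} := by
        have h1 : Continuous (fun x : ℂ => ‖x - y‖) := by fun_prop
        exact (isClosed_le continuous_const h1).inter (isClosed_le h1 continuous_const)
      have hsub : N ⊆ {x : ℂ | r / 3 ≤ ‖x - y‖ ∧ ‖x - y‖ ≤ r / 2} :=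
        fun x hx => ⟨hx.2.1, hx.2.2.le⟩
      exact closure_minimal hsub hcl hz
    have hzy : z ≠ y := by
      rintro rfl
      have := hz1.1
      rw [sub_self, norm_zero] at this
      linarith
    have hz' : z ∈ P ∨ ∃ e l ρ, SideAt K P z e l ρ := by
      rcases hgood z hzK hzy (by linarith [hz1.2]) with h | ⟨e, l, ρ, h, _⟩
      · exact Or.inl h
      · exact Or.inr ⟨e, l, ρ, h⟩
    obtain ⟨x, hx1, hx2⟩ := attain0 hK hPo hd one_pos hz' (fun x hx => hleM x hx.1)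
      (fun δ hδ η hη => by
        obtain ⟨x, hx, h⟩ := hzc δ hδ η hη
        exact ⟨x, ⟨hNP hx.1, hx.2⟩, h⟩)
    exact ⟨x, hx1.1, hx2⟩
  have hlt : M₁ < M := lt_of_le_of_ne hM₁M hMM
  exfalso
  obtain ⟨x0, hx0, hx0M⟩ := hyc (r / 2) (by linarith) (M - M₁) (by linarith)
  have hx0M' : M₁ < ‖deriv K x0‖ := by
    have : M - (M - M₁) < ‖deriv K x0‖ := hx0M
    linarith
  have hx0y : x0 ≠ y := by
    rintro rfl
    exact hyP hx0.1
  have hx0n : ‖x0 - y‖ ≠ 0 := norm_ne_zero_iff.2 (sub_ne_zero.2 hx0y)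
  -- a small exponent
  obtain ⟨ε, hε0, hε⟩ : ∃ ε : ℝ, 0 < ε ∧ M₁ * r ^ ε < ‖deriv K x0‖ * ‖x0 - y‖ ^ ε := by
    have hc : Continuous (fun ε : ℝ => ‖deriv K x0‖ * ‖x0 - y‖ ^ ε - M₁ * r ^ ε) :=
      (continuous_const.mul (Real.continuous_const_rpow hx0n)).sub
        (continuous_const.mul (Real.continuous_const_rpow hr0.ne'))
    have h1 : Tendsto (fun ε : ℝ => ‖deriv K x0‖ * ‖x0 - y‖ ^ ε - M₁ * r ^ ε) (𝓝[>] 0)
        (𝓝 (‖deriv K x0‖ - M₁)) := by
      have h2 := hc.tendsto 0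
      simp only [Real.rpow_zero, mul_one] at h2
      exact h2.mono_left nhdsWithin_le_nhds
    have h3 : ∀ᶠ ε : ℝ in 𝓝[>] 0, 0 < ‖deriv K x0‖ * ‖x0 - y‖ ^ ε - M₁ * r ^ ε :=
      h1.eventually (lt_mem_nhds (by linarith))
    have h4 : ∀ᶠ ε : ℝ in 𝓝[>] (0 : ℝ), 0 < ε := self_mem_nhdsWithin
    obtain ⟨ε, g1, g2⟩ := (h3.and h4).exists
    exact ⟨ε, g2, by linarith⟩
  set φ : ℂ → ℝ := fun x => ‖deriv K x‖ * ‖x - y‖ ^ ε with hφ
  set U : Set ℂ := P ∩ Metric.ball y (r / 2) with hU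
  have hUP : U ⊆ P := inter_subset_left
  have hUo : IsOpen U := hPo.inter Metric.isOpen_ball
  have hbddU : BddAbove (φ '' U) := by
    refine ⟨C * (r / 2) ^ ε, ?_⟩
    rintro _ ⟨x, hx, rfl⟩
    rw [hφ]
    simp only
    have h1 := hC x hx.1
    have h2 := hx.2
    rw [mem_ball_iff_norm] at h2
    gcongr
  set S : ℝ := sSup (φ '' U) with hS
  have hleS : ∀ x ∈ U, φ x ≤ S := fun x hx => le_csSup hbddU ⟨x, hx, rfl⟩
  have hS1 : M₁ * r ^ ε < S := hε.trans_le (hleS x0 hx0)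
  have hrε : 0 < r ^ ε := Real.rpow_pos_of_pos hr0 _
  have hS0 : 0 < S := lt_of_le_of_lt (mul_nonneg hM₁0 hrε.le) hS1
  have hNφ : ∀ x ∈ P, r / 3 ≤ ‖x - y‖ → ‖x - y‖ < r / 2 → φ x ≤ M₁ * r ^ ε := by
    intro x hxP h1 h2
    have h3 := hleM₁ x ⟨hxP, h1, h2⟩
    rw [hφ]
    simp only
    have h4 : ‖x - y‖ ≤ r := by linarith
    gcongr
  obtain ⟨z, hz, hzc⟩ := exists_cluster ⟨x0, hx0⟩ (isBounded_PP.subset hUP) φ
  rw [← hS] at hzc
  have hzK : z ∈ KK v := hclK (closure_mono hUP hz)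
  have hzr : ‖z - y‖ ≤ r / 2 := by
    have hcl : IsClosed {x : ℂ | ‖x - y‖ ≤ r / 2} := by
      have h1 : Continuous (fun x : ℂ => ‖x - y‖) := by fun_prop
      exact isClosed_le h1 continuous_const
    have hsub : U ⊆ {x : ℂ | ‖x - y‖ ≤ r / 2} := by
      intro x hx
      have := hx.2
      rw [mem_ball_iff_norm] at this
      exact this.le
    exact closure_minimal hsub hcl hz
  have hzy : z ≠ y := by
    rintro rfl
    have h1 : Tendsto (fun δ : ℝ => C * δ ^ ε) (𝓝[>] 0) (𝓝 0) := by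
      have h2 : Continuous (fun δ : ℝ => C * δ ^ ε) :=
        continuous_const.mul (Real.continuous_rpow_const hε0.le)
      have h3 := h2.tendsto 0
      simp only [Real.zero_rpow hε0.ne', mul_zero] at h3
      exact h3.mono_left nhdsWithin_le_nhds
    have h2 : ∀ᶠ δ : ℝ in 𝓝[>] 0, C * δ ^ ε < S / 2 := h1.eventually (gt_mem_nhds (by linarith))
    have h4 : ∀ᶠ δ : ℝ in 𝓝[>] (0 : ℝ), 0 < δ := self_mem_nhdsWithin
    obtain ⟨δ, g1, g2⟩ := (h2.and h4).exists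
    obtain ⟨x, hx, hxS⟩ := hzc δ g2 (S / 2) (by linarith)
    have h5 := hC x hx.1.1
    have h6 := hx.2
    rw [mem_ball_iff_norm] at h6
    have h7 : φ x ≤ C * δ ^ ε := by
      rw [hφ]
      simp only
      gcongr
    linarith
  have hz3 : ‖z - y‖ ≤ r / 3 := by
    by_contra hcon
    push Not at hcon
    obtain ⟨x, hx, hxS⟩ := hzc (‖z - y‖ - r / 3) (by linarith) (S - M₁ * r ^ ε) (by linarith)
    have h1 := hx.2
    rw [mem_ball_iff_norm] at h1
    have h2 : ‖z - y‖ ≤ ‖x - z‖ + ‖x - y‖ := by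
      have : z - y = -(x - z) + (x - y) := by ring
      rw [this]
      refine (norm_add_le _ _).trans ?_
      rw [norm_neg]
    have h3 := hx.1.2
    rw [mem_ball_iff_norm] at h3
    have h4 := hNφ x hx.1.1 (by linarith) h3
    linarith
  obtain ⟨p, hp, hpS⟩ := attain (δ0 := r / 6) hK hPo hd hzy.symm (by linarith)
    (hgood z hzK hzy (by linarith)) (fun x hx => hleS x ⟨hx.1, by
      have h1 := hx.2
      rw [mem_ball_iff_norm] at h1 ⊢
      have h2 : ‖x - y‖ ≤ ‖x - z‖ + ‖z - y‖ := by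
        have : x - y = (x - z) + (z - y) := by ring
        rw [this]
        exact norm_add_le _ _
      linarith⟩)
    (fun δ hδ η hη => by
      obtain ⟨x, hx, h⟩ := hzc δ hδ η hη
      exact ⟨x, ⟨hUP hx.1, hx.2⟩, h⟩)
  have hpU : p ∈ U := by
    refine ⟨hp.1, ?_⟩
    have h1 := hp.2
    rw [mem_ball_iff_norm] at h1 ⊢
    have h2 : ‖p - y‖ ≤ ‖p - z‖ + ‖z - y‖ := by
      have : p - y = (p - z) + (z - y) := by ring
      rw [this]
      exact norm_add_le _ _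
    linarith
  -- the holomorphic weight
  obtain ⟨d, hdd⟩ := exists_strict_sep hv k
  have hd0 : d ≠ 0 := by
    rintro rfl
    obtain ⟨m, hm⟩ : ∃ m : Fin n, m ≠ k := by
      have : Nontrivial (Fin n) := Fin.nontrivial_iff_two_le.2 (by omega)
      exact exists_ne k
    have := hdd m hm
    rw [cr_zero_left] at this
    exact lt_irrefl _ this
  have hdpos : ∀ x ∈ P, 0 < cr d (x - y) := by
    intro x hx
    rw [← hk]
    refine cr_pos_of_mem_PP hd0 (fun m => ?_) hx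
    by_cases hm : m = k
    · rw [hm, sub_self, cr_zero_right]
    · exact (hdd m hm).le
  have hnd : 0 < ‖d‖ := norm_pos_iff.2 hd0
  set q : ℂ → ℂ := fun x => -I * ((x - y) / d) with hq
  have hqs : ∀ x ∈ P, q x ∈ slitPlane := by
    intro x hx
    left
    have h1 := (im_div_pos hd0).2 (hdpos x hx)
    rw [hq]
    simp only [mul_re, neg_re, neg_im, I_re, I_im]
    linarith
  set G : ℂ → ℂ := fun x => deriv K x * (q x) ^ (ε : ℂ) with hG
  have hGd : DifferentiableOn ℂ G U := by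
    refine (hg.mono hUP).mul ?_
    intro x hx
    have h1 : DifferentiableAt ℂ q x :=
      ((differentiableAt_id.sub_const y).div_const d).const_mul _
    exact (h1.cpow_const (hqs x (hUP hx))).differentiableWithinAt
  set D : ℝ := ‖d‖ ^ ε with hD
  have hD0 : 0 < D := Real.rpow_pos_of_pos hnd _
  have hGn : ∀ x, ‖G x‖ * D = φ x := by
    intro x
    rw [hG, hφ]
    simp only
    rw [norm_mul, Complex.norm_cpow_real, hq]
    simp only
    rw [norm_mul, norm_neg, norm_I, one_mul, norm_div,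
      Real.div_rpow (norm_nonneg _) (norm_nonneg _), ← hD]
    field_simp
  have hUconv : Convex ℝ U := convex_PP.inter (convex_ball _ _)
  have hmax : IsMaxOn (norm ∘ G) U p := by
    intro x hx
    simp only [mem_ofPred_eq, Function.comp]
    have h1 := hGn x
    have h2 := hGn p
    have h3 := hleS x hx
    have h4 : φ p = S := hpS
    have h5 : ‖G x‖ * D ≤ ‖G p‖ * D := by rw [h1, h2, h4]; exact h3
    exact le_of_mul_le_mul_right h5 hD0
  have hconst := eqOn_of_isPreconnected_of_isMaxOn_norm hUconv.isPreconnected hUo hGd hpU hmax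
  have hx1U : x1 ∈ U := ⟨hx1.1, by rw [mem_ball_iff_norm]; exact hx1.2.2⟩
  have h1 := hconst hx1U
  have h2 := hGn x1
  rw [h1] at h2
  simp only [Function.const] at h2
  rw [hGn p] at h2
  have h3 : φ p = S := hpS
  have h4 := hNφ x1 hx1.1 hx1.2.1 hx1.2.2
  rw [← h2, h3] at h4
  linarith

end Pool.Agent.Lib.BilH
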