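import Mathlib

set_option autoImplicit false

namespace Pool.Agent.Lib.BilH

open Complex MeasureTheory Set Filter
open scoped ComplexConjugate Topology ENNReal Interval

/-- Morera: a continuous function on a ball, holomorphic off the real axis, is holomorphic. -/
theorem morera_line {f : ℂ → ℂ} {r : ℝ} (hc : ContinuousOn f (Metric.ball (0 : ℂ) r))
    (hd : ∀ z ∈ Metric.ball (0 : ℂ) r, z.im ≠ 0 → DifferentiableAt ℂ f z) :
    DifferentiableOn ℂ f (Metric.ball (0 : ℂ) r) := by
  rw [← isConservativeOn_and_continuousOn_iff_isDifferentiableOn Metric.isOpen_ball]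
  refine ⟨?_, hc⟩
  intro z w hzw
  rw [← add_eq_zero_iff_eq_neg, wedgeIntegral_add_wedgeIntegral_eq]
  have hR : ([[z.re, w.re]] ×ℂ [[z.im, w.im]]) ⊆ Metric.ball (0 : ℂ) r := hzw
  by_cases h0 : (0 : ℝ) ∈ [[z.im, w.im]]
  · -- split at the real axis
    set z' : ℂ := ⟨z.re, 0⟩ with hz'
    set w' : ℂ := ⟨w.re, 0⟩ with hw'
    have s1 : [[z.im, (0 : ℝ)]] ⊆ [[z.im, w.im]] := uIcc_subset_uIcc left_mem_uIcc h0
    have s2 : [[(0 : ℝ), w.im]] ⊆ [[z.im, w.im]] := uIcc_subset_uIcc h0 right_mem_uIcc
    have key : ∀ a b : ℂ, [[a.re, b.re]] ⊆ [[z.re, w.re]] → [[a.im, b.im]] ⊆ [[z.im, w.im]] →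
        (a.im = 0 ∨ b.im = 0) →
        (∫ x : ℝ in a.re..b.re, f (x + a.im * I)) - (∫ x : ℝ in a.re..b.re, f (x + b.im * I)) +
        I • (∫ y : ℝ in a.im..b.im, f (b.re + y * I)) -
        I • (∫ y : ℝ in a.im..b.im, f (a.re + y * I)) = 0 := by
      intro a b h1 h2 h3
      have hsub : ([[a.re, b.re]] ×ℂ [[a.im, b.im]]) ⊆ Metric.ball (0 : ℂ) r := by
        intro x hx
        exact hR ⟨h1 hx.1, h2 hx.2⟩
      refine integral_boundary_rect_eq_zero_of_continuousOn_of_differentiableOn f a b
        (hc.mono hsub) ?_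
      intro x hx
      refine (hd x ?_ ?_).differentiableWithinAt
      · apply hsub
        exact ⟨⟨hx.1.1.le, hx.1.2.le⟩, ⟨hx.2.1.le, hx.2.2.le⟩⟩
      · have h4 := hx.2
        rcases h3 with h3 | h3
        · rw [h3] at h4
          intro h5
          have h6 : x.im ∈ Ioo (min 0 b.im) (max 0 b.im) := h4
          rw [h5] at h6
          rcases le_total 0 b.im with h7 | h7
          · rw [min_eq_left h7] at h6; exact lt_irrefl _ h6.1
          · rw [max_eq_left h7] at h6; exact lt_irrefl _ h6.2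
        · rw [h3] at h4
          intro h5
          have h6 : x.im ∈ Ioo (min a.im 0) (max a.im 0) := h4
          rw [h5] at h6
          rcases le_total a.im 0 with h7 | h7
          · rw [max_eq_right h7] at h6; exact lt_irrefl _ h6.2
          · rw [min_eq_right h7] at h6; exact lt_irrefl _ h6.1
    have k1 := key z w' (by rw [hw']) (by rw [hw']; exact s1) (Or.inr rfl)
    have k2 := key z' w (by rw [hz']) (by rw [hz']; exact s2) (Or.inl rfl)
    have hii : ∀ c : ℝ, c ∈ [[z.re, w.re]] → ∀ a b : ℝ, [[a, b]] ⊆ [[z.im, w.im]] →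
        IntervalIntegrable (fun y : ℝ => f (c + y * I)) volume a b := by
      intro c hcm a b hab
      apply ContinuousOn.intervalIntegrable
      refine hc.comp (by fun_prop) ?_
      intro y hy
      apply hR
      refine ⟨?_, ?_⟩
      · simpa using hcm
      · simpa using hab hy
    have e1 := intervalIntegral.integral_add_adjacent_intervals
      (hii w.re right_mem_uIcc z.im 0 s1) (hii w.re right_mem_uIcc 0 w.im s2)
    have e2 := intervalIntegral.integral_add_adjacent_intervals
      (hii z.re left_mem_uIcc z.im 0 s1) (hii z.re left_mem_uIcc 0 w.im s2)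
    rw [← e1, ← e2]
    simp only [hz', hw'] at k1 k2
    simp only [smul_eq_mul] at k1 k2 ⊢
    linear_combination k1 + k2
  · refine integral_boundary_rect_eq_zero_of_continuousOn_of_differentiableOn f z w
      (hc.mono hR) ?_
    intro x hx
    have hx2 : x.im ∈ [[z.im, w.im]] := ⟨hx.2.1.le, hx.2.2.le⟩
    refine (hd x (hR ⟨⟨hx.1.1.le, hx.1.2.le⟩, hx2⟩) ?_).differentiableWithinAt
    intro h5
    rw [h5] at hx2
    exact h0 hx2

/-- Schwarz reflection. -/
theorem schwarz {k : ℂ → ℂ} {r : ℝ} (hk : ContinuousOn k (Metric.ball (0 : ℂ) r))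
    (hd : ∀ z ∈ Metric.ball (0 : ℂ) r, 0 < z.im → DifferentiableAt ℂ k z)
    (hreal : ∀ z ∈ Metric.ball (0 : ℂ) r, z.im = 0 → (k z).im = 0) :
    ∃ G : ℂ → ℂ, DifferentiableOn ℂ G (Metric.ball (0 : ℂ) r) ∧
      (∀ z, 0 ≤ z.im → G z = k z) ∧ (∀ z, z.im < 0 → G z = conj (k (conj z))) := by
  set G : ℂ → ℂ := fun z => if 0 ≤ z.im then k z else conj (k (conj z)) with hG
  have hup : ∀ z, 0 ≤ z.im → G z = k z := fun z hz => if_pos hz
  have hdn : ∀ z, z.im < 0 → G z = conj (k (conj z)) := fun z hz => if_neg (not_le.2 hz)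
  have hball : ∀ z ∈ Metric.ball (0 : ℂ) r, conj z ∈ Metric.ball (0 : ℂ) r := by
    intro z hz
    rw [mem_ball_zero_iff] at hz ⊢
    rwa [RCLike.norm_conj]
  have hkc : ContinuousOn (fun z => conj (k (conj z))) (Metric.ball (0 : ℂ) r) :=
    continuous_conj.comp_continuousOn (hk.comp continuous_conj.continuousOn hball)
  refine ⟨G, ?_, hup, hdn⟩
  apply morera_line
  · apply ContinuousOn.if
    · intro a ha
      have h1 : a.im = 0 := by
        have := ha.2
        rw [frontier_setOfPred_le_im] at this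
        exact this
      have h2 : conj a = a := conj_eq_iff_im.2 h1
      rw [h2]
      exact (conj_eq_iff_im.2 (hreal a ha.1 h1)).symm
    · exact hk.mono inter_subset_left
    · exact hkc.mono inter_subset_left
  · intro z hz hz0
    rcases lt_or_gt_of_ne hz0 with h | h
    · have h1 : G =ᶠ[𝓝 z] fun z => conj (k (conj z)) := by
        have : {z : ℂ | z.im < 0} ∈ 𝓝 z := (isOpen_lt continuous_im continuous_const).mem_nhds h
        filter_upwards [this] with y hy
        exact hdn y hy
      rw [h1.differentiableAt_iff]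
      have h2 : DifferentiableAt ℂ k (conj z) := hd _ (hball z hz) (by rw [conj_im]; linarith)
      have h3 := h2.conj_conj
      rw [conj_conj] at h3
      exact h3
    · have h1 : G =ᶠ[𝓝 z] k := by
        have : {z : ℂ | 0 < z.im} ∈ 𝓝 z := (isOpen_lt continuous_const continuous_im).mem_nhds h
        filter_upwards [this] with y hy
        exact hup y (le_of_lt hy)
      rw [h1.differentiableAt_iff]
      exact hd z hz h

end Pool.Agent.Lib.BilH
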